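import Mathlib

/-!
# A potential-function method for two-player positional games

A history is a list of claimed points, the most recent one first.  The first player made the moves
number `0, 2, 4, …`, the second player the moves number `1, 3, 5, …`.
-/

namespace Pool.Agent.Lead.Clique

open Finset

section Game

variable {E : Type*} [DecidableEq E]

/-- points claimed by the first player in a history (most recent move first) -/
def fst : List E → Finset E
  | [] => ∅
  | e :: h => if Even h.length then insert e (fst h) else fst h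

/-- points claimed by the second player in a history (most recent move first) -/
def snd : List E → Finset E
  | [] => ∅
  | e :: h => if Even h.length then snd h else insert e (snd h)

/-- the first player followed the strategy `σ` throughout the history -/
def FollowsFst (σ : List E → E) : List E → Prop
  | [] => True
  | e :: h => FollowsFst σ h ∧ (Even h.length → e = σ h)

/-- the second player followed the strategy `σ` throughout the history -/
def FollowsSnd (σ : List E → E) : List E → Prop
  | [] => True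
  | e :: h => FollowsSnd σ h ∧ (¬ Even h.length → e = σ h)

/-- a strategy is legal if it always answers with an unclaimed point when there is one -/
def Legal (σ : List E → E) : Prop :=
  ∀ h : List E, h.Nodup → (∃ e, e ∉ h) → σ h ∉ h

lemma mem_fst_or_snd (h : List E) (e : E) : e ∈ h ↔ e ∈ fst h ∨ e ∈ snd h := by
  induction h with
  | nil => simp [fst, snd]
  | cons a h ih =>
    simp only [fst, snd, List.mem_cons]
    split_ifs <;> simp [ih] <;> tauto

lemma not_mem_fst {h : List E} {e : E} (he : e ∉ h) : e ∉ fst h :=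
  fun H => he ((mem_fst_or_snd h e).2 (Or.inl H))

lemma not_mem_snd {h : List E} {e : E} (he : e ∉ h) : e ∉ snd h :=
  fun H => he ((mem_fst_or_snd h e).2 (Or.inr H))

lemma disjoint_fst_snd (h : List E) (hn : h.Nodup) : Disjoint (fst h) (snd h) := by
  induction h with
  | nil => simp [fst, snd]
  | cons a h ih =>
    rw [List.nodup_cons] at hn
    simp only [fst, snd]
    split_ifs
    · rw [Finset.disjoint_insert_left]
      exact ⟨not_mem_snd hn.1, ih hn.2⟩
    · rw [Finset.disjoint_insert_right]
      exact ⟨not_mem_fst hn.1, ih hn.2⟩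

/-- extremal choice: there is a legal strategy maximising `g` over the unclaimed points -/
lemma exists_max_strategy [Fintype E] [Nonempty E] (g : List E → E → ℝ) :
    ∃ σ : List E → E, Legal σ ∧ ∀ h : List E, ∀ y, y ∉ h → g h y ≤ g h (σ h) := by
  classical
  have key : ∀ h : List E, ∃ x : E, (∃ e, e ∉ h) → (x ∉ h ∧ ∀ y, y ∉ h → g h y ≤ g h x) := by
    intro h
    by_cases H : ∃ e, e ∉ h
    · obtain ⟨e, he⟩ := H
      have hne : (univ.filter (fun x : E => x ∉ h)).Nonempty := ⟨e, by simp [he]⟩
      obtain ⟨x, hx, hmax⟩ := Finset.exists_max_image _ (g h) hne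
      simp only [mem_filter, mem_univ, true_and] at hx hmax
      exact ⟨x, fun _ => ⟨hx, hmax⟩⟩
    · exact ⟨Classical.arbitrary E, fun H' => absurd H' H⟩
  choose σ hσ using key
  exact ⟨σ, fun h _ H => (hσ h H).1, fun h y hy => (hσ h ⟨y, hy⟩).2 y hy⟩

/-- **First player's potential strategy.** -/
theorem first_player [Fintype E] [Nonempty E] (Ψ : Finset E → Finset E → ℝ)
    (g : Finset E → Finset E → E → ℝ) (δ : ℝ)
    (hround : ∀ A B : Finset E, ∀ x y : E, x ∉ A → x ∉ B → y ∉ A → y ∉ B → x ≠ y →
      Ψ A B + g A B x - g A B y - δ ≤ Ψ (insert x A) (insert y B)) :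
    ∃ σ : List E → E, Legal σ ∧ ∀ (k : ℕ) (h : List E), h.Nodup → FollowsFst σ h →
      h.length = 2 * k → Ψ ∅ ∅ - k * δ ≤ Ψ (fst h) (snd h) := by
  obtain ⟨σ, hleg, hmax⟩ := exists_max_strategy (fun h : List E => g (fst h) (snd h))
  refine ⟨σ, hleg, ?_⟩
  intro k
  induction k with
  | zero =>
    intro h _ _ hl
    have : h = [] := List.length_eq_zero_iff.1 (by omega)
    subst this
    simp [fst, snd]
  | succ k ih =>
    intro h hn hf hl
    match h, hn, hf, hl with
    | [], _, _, hl => simp at hl
    | [_], _, _, hl => simp at hl; omega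
    | y :: x :: h, hn, hf, hl =>
      have hlen : h.length = 2 * k := by simp at hl; omega
      have he : Even h.length := ⟨k, by omega⟩
      have ho : ¬ Even (x :: h).length := by
        simp only [List.length_cons, Nat.not_even_iff_odd]
        exact he.add_one
      rw [List.nodup_cons, List.nodup_cons] at hn
      obtain ⟨hy, hx, hn⟩ := hn
      simp only [FollowsFst] at hf
      obtain ⟨⟨hf, hxσ⟩, -⟩ := hf
      have hxσ := hxσ he
      have hyh : y ∉ h := fun H => hy (List.mem_cons_of_mem _ H)
      have hxy : x ≠ y := fun H => hy (by simp [H])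
      have h1 := ih h hn hf hlen
      have h2 := hround (fst h) (snd h) x y (not_mem_fst hx) (not_mem_snd hx)
        (not_mem_fst hyh) (not_mem_snd hyh) hxy
      have h3 := hmax h y hyh
      rw [← hxσ] at h3
      have e1 : fst (y :: x :: h) = insert x (fst h) := by
        rw [fst, if_neg ho, fst, if_pos he]
      have e2 : snd (y :: x :: h) = insert y (snd h) := by
        rw [snd, if_neg ho, snd, if_pos he]
      rw [e1, e2]
      push_cast
      linarith

/-- **Second player's potential strategy.** -/
theorem second_player [Fintype E] [Nonempty E] (Ψ : Finset E → Finset E → ℝ)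
    (g : Finset E → Finset E → E → ℝ) (δ c : ℝ)
    (hround : ∀ A B : Finset E, ∀ x y : E, x ∉ A → x ∉ B → y ∉ A → y ∉ B → x ≠ y →
      Ψ A B + g A B x - g A B y - δ ≤ Ψ (insert x A) (insert y B))
    (hfirst : ∀ a, c ≤ Ψ {a} ∅) :
    ∃ σ : List E → E, Legal σ ∧ ∀ (k : ℕ) (h : List E), h.Nodup → FollowsSnd σ h →
      h.length = 2 * k + 1 → c - k * δ ≤ Ψ (fst h) (snd h) := by
  obtain ⟨σ, hleg, hmax⟩ := exists_max_strategy (fun h : List E => fun y => - g (fst h) (snd h) y)
  refine ⟨σ, hleg, ?_⟩
  intro k
  induction k with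
  | zero =>
    intro h _ _ hl
    obtain ⟨a, rfl⟩ := List.length_eq_one_iff.1 (by omega : h.length = 1)
    have e1 : fst [a] = {a} := by simp [fst]
    have e2 : snd [a] = ∅ := by simp [snd]
    rw [e1, e2]
    simpa using hfirst a
  | succ k ih =>
    intro h hn hf hl
    match h, hn, hf, hl with
    | [], _, _, hl => simp at hl
    | [_], _, _, hl => simp at hl
    | x :: y :: h, hn, hf, hl =>
      have hlen : h.length = 2 * k + 1 := by simp at hl; omega
      have ho : ¬ Even h.length := by
        rw [Nat.not_even_iff_odd]; exact ⟨k, by omega⟩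
      have he : Even (y :: h).length := by
        simp only [List.length_cons]
        exact (Nat.not_even_iff_odd.1 ho).add_one
      rw [List.nodup_cons, List.nodup_cons] at hn
      obtain ⟨hx, hy, hn⟩ := hn
      simp only [FollowsSnd] at hf
      obtain ⟨⟨hf, hyσ⟩, -⟩ := hf
      have hyσ := hyσ ho
      have hxh : x ∉ h := fun H => hx (List.mem_cons_of_mem _ H)
      have hxy : x ≠ y := fun H => hx (by simp [H])
      have h1 := ih h hn hf hlen
      have h2 := hround (fst h) (snd h) x y (not_mem_fst hxh) (not_mem_snd hxh)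
        (not_mem_fst hy) (not_mem_snd hy) hxy
      have h3 := hmax h x hxh
      rw [← hyσ] at h3
      have e1 : fst (x :: y :: h) = insert x (fst h) := by
        rw [fst, if_pos he, fst, if_neg ho]
      have e2 : snd (x :: y :: h) = insert y (snd h) := by
        rw [snd, if_pos he, snd, if_neg ho]
      rw [e1, e2]
      push_cast
      linarith

end Game

section Weights

variable {E : Type*} [DecidableEq E] {ι : Type*}

/-- weight of a winning set `U` in the position `(A, B)` -/
noncomputable def wt (U A B : Finset E) : ℝ :=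
  if Disjoint U B then (1 / 2 : ℝ) ^ (U \ A).card else 0

lemma wt_nonneg (U A B : Finset E) : 0 ≤ wt U A B := by
  unfold wt; split_ifs <;> positivity

lemma wt_empty (U : Finset E) : wt U ∅ ∅ = (1 / 2 : ℝ) ^ U.card := by
  simp [wt]

/-- claiming `x` by the first player -/
lemma wt_insert_left (U A B : Finset E) (x : E) (hA : x ∉ A) :
    wt U (insert x A) B = wt U A B + if x ∈ U then wt U A B else 0 := by
  unfold wt
  by_cases hd : Disjoint U B
  · simp only [if_pos hd]
    by_cases hx : x ∈ U
    · simp only [if_pos hx]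
      have : U \ A = insert x (U \ insert x A) := by
        ext z; simp only [mem_sdiff, mem_insert]
        constructor
        · rintro ⟨h1, h2⟩
          by_cases hz : z = x
          · exact Or.inl hz
          · exact Or.inr ⟨h1, by tauto⟩
        · rintro (rfl | ⟨h1, h2⟩)
          · exact ⟨hx, hA⟩
          · exact ⟨h1, by tauto⟩
      rw [this, Finset.card_insert_of_notMem (by simp), pow_succ]
      ring
    · simp only [if_neg hx, add_zero]
      have : U \ insert x A = U \ A := by
        ext z; simp only [mem_sdiff, mem_insert]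
        constructor
        · rintro ⟨h1, h2⟩; exact ⟨h1, by tauto⟩
        · rintro ⟨h1, h2⟩
          refine ⟨h1, ?_⟩
          rintro (rfl | h3)
          · exact hx h1
          · exact h2 h3
      rw [this]
  · simp only [if_neg hd]; simp

/-- claiming `y` by the second player -/
lemma wt_insert_right (U A B : Finset E) (y : E) :
    wt U A (insert y B) = wt U A B - if y ∈ U then wt U A B else 0 := by
  unfold wt
  by_cases hy : y ∈ U
  · rw [if_neg (by rw [Finset.disjoint_insert_right]; tauto), if_pos hy]; ring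
  · have : Disjoint U (insert y B) ↔ Disjoint U B := by
      rw [Finset.disjoint_insert_right]; tauto
    simp only [this, if_neg hy, sub_zero]

/-- a full round -/
lemma wt_round (U A B : Finset E) (x y : E) (hxA : x ∉ A) :
    wt U (insert x A) (insert y B) = wt U A B + (if x ∈ U then wt U A B else 0)
      - (if y ∈ U then wt U A B else 0) - (if x ∈ U ∧ y ∈ U then wt U A B else 0) := by
  rw [wt_insert_right, wt_insert_left U A B x hxA]
  by_cases hx : x ∈ U <;> by_cases hy : y ∈ U <;> simp [hx, hy]

/-- total weight of a family -/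
noncomputable def tw (s : Finset ι) (U : ι → Finset E) (A B : Finset E) : ℝ :=
  ∑ i ∈ s, wt (U i) A B

/-- total weight of the members containing `x` -/
noncomputable def tw1 (s : Finset ι) (U : ι → Finset E) (A B : Finset E) (x : E) : ℝ :=
  ∑ i ∈ s, if x ∈ U i then wt (U i) A B else 0

/-- total weight of the members containing both `x` and `y` -/
noncomputable def tw2 (s : Finset ι) (U : ι → Finset E) (A B : Finset E) (x y : E) : ℝ :=
  ∑ i ∈ s, if x ∈ U i ∧ y ∈ U i then wt (U i) A B else 0

lemma tw_nonneg (s : Finset ι) (U : ι → Finset E) (A B : Finset E) : 0 ≤ tw s U A B :=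
  Finset.sum_nonneg fun _ _ => wt_nonneg _ _ _

lemma tw1_nonneg (s : Finset ι) (U : ι → Finset E) (A B : Finset E) (x : E) :
    0 ≤ tw1 s U A B x :=
  Finset.sum_nonneg fun _ _ => by split_ifs; exacts [wt_nonneg _ _ _, le_rfl]

lemma tw2_nonneg (s : Finset ι) (U : ι → Finset E) (A B : Finset E) (x y : E) :
    0 ≤ tw2 s U A B x y :=
  Finset.sum_nonneg fun _ _ => by split_ifs; exacts [wt_nonneg _ _ _, le_rfl]

lemma tw1_le_tw (s : Finset ι) (U : ι → Finset E) (A B : Finset E) (x : E) :
    tw1 s U A B x ≤ tw s U A B :=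
  Finset.sum_le_sum fun _ _ => by split_ifs; exacts [le_rfl, wt_nonneg _ _ _]

lemma tw_round (s : Finset ι) (U : ι → Finset E) (A B : Finset E) (x y : E) (hxA : x ∉ A) :
    tw s U (insert x A) (insert y B) =
      tw s U A B + tw1 s U A B x - tw1 s U A B y - tw2 s U A B x y := by
  unfold tw tw1 tw2
  rw [← Finset.sum_add_distrib, ← Finset.sum_sub_distrib, ← Finset.sum_sub_distrib]
  exact Finset.sum_congr rfl fun i _ => wt_round _ _ _ _ _ hxA

lemma tw_insert_left (s : Finset ι) (U : ι → Finset E) (A B : Finset E) (x : E) (hxA : x ∉ A) :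
    tw s U (insert x A) B = tw s U A B + tw1 s U A B x := by
  unfold tw tw1
  rw [← Finset.sum_add_distrib]
  exact Finset.sum_congr rfl fun i _ => wt_insert_left _ _ _ _ hxA

lemma tw_insert_right (s : Finset ι) (U : ι → Finset E) (A B : Finset E) (y : E) :
    tw s U A (insert y B) = tw s U A B - tw1 s U A B y := by
  unfold tw tw1
  rw [← Finset.sum_sub_distrib]
  exact Finset.sum_congr rfl fun i _ => wt_insert_right _ _ _ _

/-- ordered pairs of members meeting in at least `r` points -/
def prs [DecidableEq ι] (s : Finset ι) (U : ι → Finset E) (r : ℕ) : Finset (ι × ι) :=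
  (s ×ˢ s).filter fun p => r ≤ (U p.1 ∩ U p.2).card

/-- the union of a pair -/
def un (U : ι → Finset E) (p : ι × ι) : Finset E := U p.1 ∪ U p.2

lemma mem_un (U : ι → Finset E) (i j : ι) (x : E) : x ∈ un U (i, j) ↔ x ∈ U i ∨ x ∈ U j := by
  simp [un]

lemma wt_mul_le (U V A B C : Finset E) (r : ℕ) (hC : C ⊆ (U ∩ V) \ A) (hr : r ≤ C.card) :
    wt U A B * wt V A B * 2 ^ r ≤ wt (U ∪ V) A B := by
  unfold wt
  by_cases h1 : Disjoint U B
  · by_cases h2 : Disjoint V B
    · rw [if_pos h1, if_pos h2, if_pos (Finset.disjoint_union_left.2 ⟨h1, h2⟩), ← pow_add]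
      have e1 : (U ∪ V) \ A = (U \ A) ∪ (V \ A) := by
        ext z; simp only [mem_sdiff, mem_union]; tauto
      have e2 : (U ∩ V) \ A = (U \ A) ∩ (V \ A) := by
        ext z; simp only [mem_sdiff, mem_inter]; tauto
      have e3 := Finset.card_union_add_card_inter (U \ A) (V \ A)
      rw [← e1, ← e2] at e3
      have e4 : C.card ≤ ((U ∩ V) \ A).card := Finset.card_le_card hC
      have e5 : (2 : ℝ) ^ r = ((1 / 2 : ℝ) ^ r)⁻¹ := by
        rw [← inv_pow]; norm_num
      rw [e5, ← div_eq_mul_inv, div_le_iff₀ (by positivity), ← pow_add]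
      apply pow_le_pow_of_le_one (by norm_num) (by norm_num)
      omega
    · rw [if_neg h2]
      simp only [mul_zero, zero_mul]
      split_ifs <;> positivity
  · rw [if_neg h1]
    simp only [zero_mul]
    split_ifs <;> positivity

/-- the key inequality: `4 T(x,y)^2 ≤ T₂(x,y)` -/
lemma four_mul_sq_le [DecidableEq ι] (s : Finset ι) (U : ι → Finset E) (A B : Finset E) (x y : E)
    (hxA : x ∉ A) (hyA : y ∉ A) (hxy : x ≠ y) :
    4 * tw2 s U A B x y ^ 2 ≤ tw2 (prs s U 2) (un U) A B x y := by
  have e1 : tw2 s U A B x y ^ 2 = ∑ p ∈ s ×ˢ s,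
      (if x ∈ U p.1 ∧ y ∈ U p.1 then wt (U p.1) A B else 0) *
      (if x ∈ U p.2 ∧ y ∈ U p.2 then wt (U p.2) A B else 0) := by
    rw [sq, tw2, Finset.sum_mul_sum, ← Finset.sum_product']
  rw [e1, Finset.mul_sum]
  unfold tw2 prs
  rw [Finset.sum_filter]
  apply Finset.sum_le_sum
  rintro ⟨i, j⟩ _
  dsimp only
  by_cases h1 : x ∈ U i ∧ y ∈ U i
  · by_cases h2 : x ∈ U j ∧ y ∈ U j
    · have hC : ({x, y} : Finset E) ⊆ (U i ∩ U j) \ A := by
        intro z hz
        simp only [mem_insert, mem_singleton] at hz
        simp only [mem_sdiff, mem_inter]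
        rcases hz with rfl | rfl
        · exact ⟨⟨h1.1, h2.1⟩, hxA⟩
        · exact ⟨⟨h1.2, h2.2⟩, hyA⟩
      have hc : ({x, y} : Finset E).card = 2 := Finset.card_pair hxy
      have hcard : 2 ≤ (U i ∩ U j).card := by
        rw [← hc]
        exact Finset.card_le_card (hC.trans Finset.sdiff_subset)
      rw [if_pos h1, if_pos h2, if_pos hcard,
        if_pos (⟨(mem_un U i j x).2 (Or.inl h1.1), (mem_un U i j y).2 (Or.inl h1.2)⟩)]
      have := wt_mul_le (U i) (U j) A B {x, y} 2 hC hc.ge
      unfold un
      dsimp only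
      linarith
    · rw [if_neg h2]
      simp only [mul_zero]
      split_ifs <;> first | exact wt_nonneg _ _ _ | exact le_rfl
  · rw [if_neg h1]
    simp only [zero_mul, mul_zero]
    split_ifs <;> first | exact wt_nonneg _ _ _ | exact le_rfl

/-- `2 T(y)^2 ≤ T₁(y)` -/
lemma two_mul_sq_le [DecidableEq ι] (s : Finset ι) (U : ι → Finset E) (A B : Finset E) (y : E)
    (hyA : y ∉ A) :
    2 * tw1 s U A B y ^ 2 ≤ tw1 (prs s U 1) (un U) A B y := by
  have e1 : tw1 s U A B y ^ 2 = ∑ p ∈ s ×ˢ s,
      (if y ∈ U p.1 then wt (U p.1) A B else 0) *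
      (if y ∈ U p.2 then wt (U p.2) A B else 0) := by
    rw [sq, tw1, Finset.sum_mul_sum, ← Finset.sum_product']
  rw [e1, Finset.mul_sum]
  unfold tw1 prs
  rw [Finset.sum_filter]
  apply Finset.sum_le_sum
  rintro ⟨i, j⟩ _
  dsimp only
  by_cases h1 : y ∈ U i
  · by_cases h2 : y ∈ U j
    · have hC : ({y} : Finset E) ⊆ (U i ∩ U j) \ A := by
        intro z hz
        simp only [mem_singleton] at hz
        simp only [mem_sdiff, mem_inter]
        rcases hz with rfl
        exact ⟨⟨h1, h2⟩, hyA⟩
      have hc : ({y} : Finset E).card = 1 := Finset.card_singleton y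
      have hcard : 1 ≤ (U i ∩ U j).card := by
        rw [← hc]
        exact Finset.card_le_card (hC.trans Finset.sdiff_subset)
      rw [if_pos h1, if_pos h2, if_pos hcard, if_pos ((mem_un U i j y).2 (Or.inl h1))]
      have := wt_mul_le (U i) (U j) A B {y} 1 hC hc.ge
      unfold un
      dsimp only
      linarith
    · rw [if_neg h2]
      simp only [mul_zero]
      split_ifs <;> first | exact wt_nonneg _ _ _ | exact le_rfl
  · rw [if_neg h1]
    simp only [zero_mul, mul_zero]
    split_ifs <;> first | exact wt_nonneg _ _ _ | exact le_rfl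

end Weights

section Criteria

variable {E : Type*} [DecidableEq E] [Fintype E] [Nonempty E] {ι : Type*} [DecidableEq ι]

lemma quad_le (lam t : ℝ) (hl : 0 < lam) : t - lam * (4 * t ^ 2) ≤ 1 / (16 * lam) := by
  rw [le_div_iff₀ (by positivity)]
  nlinarith [sq_nonneg (8 * lam * t - 1)]

lemma quad_le' (mu t : ℝ) (hl : 0 < mu) : t - mu * (2 * t ^ 2) ≤ 1 / (8 * mu) := by
  rw [le_div_iff₀ (by positivity)]
  nlinarith [sq_nonneg (4 * mu * t - 1)]

/-- at the end of the game, a positive weight gives a fully claimed winning set -/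
lemma exists_of_tw_pos (s : Finset ι) (U : ι → Finset E) (h : List E)
    (hall : ∀ e, e ∈ h) (hpos : 0 < tw s U (fst h) (snd h)) :
    ∃ i ∈ s, U i ⊆ fst h := by
  by_contra hcon
  push Not at hcon
  have : tw s U (fst h) (snd h) = 0 := by
    apply Finset.sum_eq_zero
    intro i hi
    unfold wt
    rw [if_neg]
    intro hd
    apply hcon i hi
    intro e he
    rcases (mem_fst_or_snd h e).1 (hall e) with h1 | h1
    · exact h1
    · exact absurd h1 (Finset.disjoint_left.1 hd he)
  linarith

/-- at the end of the game, a fully claimed winning set gives weight at least `1` -/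
lemma one_le_tw (s : Finset ι) (U : ι → Finset E) (A B : Finset E) (hd : Disjoint A B)
    (i : ι) (hi : i ∈ s) (hU : U i ⊆ A) : 1 ≤ tw s U A B := by
  have h1 : wt (U i) A B = 1 := by
    unfold wt
    rw [if_pos (Finset.disjoint_of_subset_left hU hd)]
    have : U i \ A = ∅ := Finset.sdiff_eq_empty_iff_subset.2 hU
    rw [this]; simp
  calc (1 : ℝ) = wt (U i) A B := h1.symm
    _ ≤ tw s U A B := Finset.single_le_sum (f := fun i => wt (U i) A B)
        (fun _ _ => wt_nonneg _ _ _) hi

/-- number of claimed points -/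
lemma length_eq_card (h : List E) (hn : h.Nodup) (hall : ∀ e, e ∈ h) :
    h.length = Fintype.card E := by
  rw [← List.toFinset_card_of_nodup hn]
  have : h.toFinset = univ := by ext e; simp [hall e]
  rw [this]; rfl

/-- **Weak win criterion for the first player (Maker).** -/
theorem maker_criterion (s : Finset ι) (U : ι → Finset E) (m : ℕ) (hm : Fintype.card E = 2 * m)
    (lam : ℝ) (hl : 0 < lam)
    (hcrit : lam * tw (prs s U 2) (un U) ∅ ∅ + m / (16 * lam) < tw s U ∅ ∅) :
    ∃ σ : List E → E, Legal σ ∧ ∀ h : List E, h.Nodup → (∀ e, e ∈ h) → FollowsFst σ h →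
      ∃ i ∈ s, U i ⊆ fst h := by
  obtain ⟨σ, hleg, H⟩ := first_player
    (fun A B => tw s U A B - lam * tw (prs s U 2) (un U) A B)
    (fun A B x => tw1 s U A B x - lam * tw1 (prs s U 2) (un U) A B x) (1 / (16 * lam)) (by
      intro A B x y hxA _ hyA _ hxy
      rw [tw_round _ _ _ _ _ _ hxA, tw_round _ _ _ _ _ _ hxA]
      have h1 := four_mul_sq_le s U A B x y hxA hyA hxy
      have h2 := quad_le lam (tw2 s U A B x y) hl
      have h3 := mul_le_mul_of_nonneg_left h1 hl.le
      linarith)
  refine ⟨σ, hleg, ?_⟩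
  intro h hn hall hf
  have hlen : h.length = 2 * m := by rw [length_eq_card h hn hall, hm]
  have h1 := H m h hn hf hlen
  apply exists_of_tw_pos s U h hall
  have h2 : 0 ≤ lam * tw (prs s U 2) (un U) (fst h) (snd h) :=
    mul_nonneg hl.le (tw_nonneg _ _ _ _)
  have h3 : (m : ℝ) * (1 / (16 * lam)) = m / (16 * lam) := by ring
  rw [h3] at h1
  linarith

/-- **Weak win criterion for the second player forcing the first player (Forcer).** -/
theorem forcer_criterion (s : Finset ι) (U : ι → Finset E) (m : ℕ)
    (hm : Fintype.card E = 2 * m) (lam mu : ℝ) (hl : 0 < lam) (hmu : 0 < mu)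
    (hcrit : 2 * lam * tw (prs s U 2) (un U) ∅ ∅ + 2 * mu * tw (prs s U 1) (un U) ∅ ∅
      + m / (16 * lam) + 1 / (8 * mu) < tw s U ∅ ∅) :
    ∃ σ : List E → E, Legal σ ∧ ∀ h : List E, h.Nodup → (∀ e, e ∈ h) → FollowsSnd σ h →
      ∃ i ∈ s, U i ⊆ fst h := by
  obtain ⟨σ, hleg, H⟩ := second_player
    (fun A B => tw s U A B - lam * tw (prs s U 2) (un U) A B - mu * tw (prs s U 1) (un U) A B)
    (fun A B x => tw1 s U A B x - lam * tw1 (prs s U 2) (un U) A B x
      - mu * tw1 (prs s U 1) (un U) A B x) (1 / (16 * lam))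
    (tw s U ∅ ∅ - 2 * lam * tw (prs s U 2) (un U) ∅ ∅ - 2 * mu * tw (prs s U 1) (un U) ∅ ∅) (by
      intro A B x y hxA _ hyA _ hxy
      rw [tw_round _ _ _ _ _ _ hxA, tw_round _ _ _ _ _ _ hxA, tw_round _ _ _ _ _ _ hxA]
      have h1 := four_mul_sq_le s U A B x y hxA hyA hxy
      have h2 := quad_le lam (tw2 s U A B x y) hl
      have h3 := mul_le_mul_of_nonneg_left h1 hl.le
      have h4 := mul_nonneg hmu.le (tw2_nonneg (prs s U 1) (un U) A B x y)
      linarith) (by
      intro a
      have e : ({a} : Finset E) = insert a ∅ := by simp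
      rw [e, tw_insert_left _ _ _ _ _ (by simp), tw_insert_left _ _ _ _ _ (by simp),
        tw_insert_left _ _ _ _ _ (by simp)]
      have h1 := tw1_nonneg s U ∅ ∅ a
      have h2 := mul_le_mul_of_nonneg_left (tw1_le_tw (prs s U 2) (un U) ∅ ∅ a) hl.le
      have h3 := mul_le_mul_of_nonneg_left (tw1_le_tw (prs s U 1) (un U) ∅ ∅ a) hmu.le
      linarith)
  refine ⟨σ, hleg, ?_⟩
  intro h hn hall hf
  have hlen : h.length = 2 * m := by rw [length_eq_card h hn hall, hm]
  have hmpos : 0 < m := by
    have := Fintype.card_pos (α := E)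
    omega
  match h, hn, hall, hf, hlen with
  | [], _, _, _, hlen => simp at hlen; omega
  | y :: h, hn, hall, hf, hlen =>
    have hl' : h.length = 2 * (m - 1) + 1 := by simp at hlen; omega
    have ho : ¬ Even h.length := by
      rw [Nat.not_even_iff_odd]; exact ⟨m - 1, by omega⟩
    rw [List.nodup_cons] at hn
    have h1 := H (m - 1) h hn.2 hf.1 hl'
    have e1 : fst (y :: h) = fst h := by rw [fst, if_neg ho]
    have e2 : snd (y :: h) = insert y (snd h) := by rw [snd, if_neg ho]
    apply exists_of_tw_pos s U (y :: h) hall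
    rw [e1, e2, tw_insert_right]
    have h2 := two_mul_sq_le s U (fst h) (snd h) y (not_mem_fst hn.1)
    have h3 := quad_le' mu (tw1 s U (fst h) (snd h) y) hmu
    have h4 := tw1_le_tw (prs s U 1) (un U) (fst h) (snd h) y
    have h5 := mul_le_mul_of_nonneg_left (h2.trans h4) hmu.le
    have h6 := mul_nonneg hl.le (tw_nonneg (prs s U 2) (un U) (fst h) (snd h))
    have h7 : ((m - 1 : ℕ) : ℝ) * (1 / (16 * lam)) ≤ m / (16 * lam) := by
      rw [mul_one_div]
      apply div_le_div_of_nonneg_right _ (by positivity)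
      exact_mod_cast Nat.sub_le m 1
    linarith

/-- **Erdős–Selfridge for the second player (Breaker).** -/
theorem breaker_criterion (s : Finset ι) (U : ι → Finset E) (m : ℕ)
    (hm : Fintype.card E = 2 * m) (hcrit : 2 * tw s U ∅ ∅ < 1) :
    ∃ σ : List E → E, Legal σ ∧ ∀ h : List E, h.Nodup → (∀ e, e ∈ h) → FollowsSnd σ h →
      ∀ i ∈ s, ¬ U i ⊆ fst h := by
  obtain ⟨σ, hleg, H⟩ := second_player
    (fun A B => - tw s U A B) (fun A B x => - tw1 s U A B x) 0 (- (2 * tw s U ∅ ∅)) (by
      intro A B x y hxA _ hyA _ hxy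
      rw [tw_round _ _ _ _ _ _ hxA]
      have := tw2_nonneg s U A B x y
      linarith) (by
      intro a
      have e : ({a} : Finset E) = insert a ∅ := by simp
      rw [e, tw_insert_left _ _ _ _ _ (by simp)]
      have h1 := tw1_le_tw s U ∅ ∅ a
      linarith)
  refine ⟨σ, hleg, ?_⟩
  intro h hn hall hf
  have hlen : h.length = 2 * m := by rw [length_eq_card h hn hall, hm]
  have hmpos : 0 < m := by
    have := Fintype.card_pos (α := E)
    omega
  match h, hn, hall, hf, hlen with
  | [], _, _, _, hlen => simp at hlen; omega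
  | y :: h, hn, hall, hf, hlen =>
    have hl' : h.length = 2 * (m - 1) + 1 := by simp at hlen; omega
    have ho : ¬ Even h.length := by
      rw [Nat.not_even_iff_odd]; exact ⟨m - 1, by omega⟩
    have hn' := hn
    rw [List.nodup_cons] at hn
    have h1 := H (m - 1) h hn.2 hf.1 hl'
    have e1 : fst (y :: h) = fst h := by rw [fst, if_neg ho]
    intro i hi hU
    rw [e1] at hU
    have h2 := one_le_tw s U (fst h) (snd h) (disjoint_fst_snd h hn.2) i hi hU
    simp only [mul_zero, sub_zero] at h1
    linarith

/-- **Erdős–Selfridge for the first player avoiding (Avoider).** -/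
theorem avoider_criterion (s : Finset ι) (U : ι → Finset E) (m : ℕ)
    (hm : Fintype.card E = 2 * m) (hcrit : tw s U ∅ ∅ < 1) :
    ∃ σ : List E → E, Legal σ ∧ ∀ h : List E, h.Nodup → (∀ e, e ∈ h) → FollowsFst σ h →
      ∀ i ∈ s, ¬ U i ⊆ fst h := by
  obtain ⟨σ, hleg, H⟩ := first_player
    (fun A B => - tw s U A B) (fun A B x => - tw1 s U A B x) 0 (by
      intro A B x y hxA _ hyA _ hxy
      rw [tw_round _ _ _ _ _ _ hxA]
      have := tw2_nonneg s U A B x y
      linarith)
  refine ⟨σ, hleg, ?_⟩
  intro h hn hall hf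
  have hlen : h.length = 2 * m := by rw [length_eq_card h hn hall, hm]
  intro i hi hU
  have h1 := H m h hn hf hlen
  have h2 := one_le_tw s U (fst h) (snd h) (disjoint_fst_snd h hn) i hi hU
  simp only [mul_zero, sub_zero] at h1
  linarith

/-- two legal strategies produce a complete play -/
theorem exists_play (σ τ : List E → E) (hσ : Legal σ) (hτ : Legal τ) :
    ∃ h : List E, h.Nodup ∧ (∀ e, e ∈ h) ∧ FollowsFst σ h ∧ FollowsSnd τ h := by
  have key : ∀ n ≤ Fintype.card E, ∃ h : List E, h.Nodup ∧ h.length = n ∧ FollowsFst σ h ∧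
      FollowsSnd τ h := by
    intro n
    induction n with
    | zero => intro _; exact ⟨[], by simp, rfl, trivial, trivial⟩
    | succ n ih =>
      intro hn
      obtain ⟨h, hnd, hl, h1, h2⟩ := ih (by omega)
      have hex : ∃ e, e ∉ h := by
        by_contra hcon
        push Not at hcon
        have := length_eq_card h hnd hcon
        omega
      by_cases he : Even h.length
      · refine ⟨σ h :: h, List.nodup_cons.2 ⟨hσ h hnd hex, hnd⟩, by simp [hl], ⟨h1, fun _ => rfl⟩,
          ⟨h2, fun H => absurd he H⟩⟩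
      · refine ⟨τ h :: h, List.nodup_cons.2 ⟨hτ h hnd hex, hnd⟩, by simp [hl],
          ⟨h1, fun H => absurd H he⟩, ⟨h2, fun _ => rfl⟩⟩
  obtain ⟨h, hnd, hl, h1, h2⟩ := key _ le_rfl
  refine ⟨h, hnd, ?_, h1, h2⟩
  intro e
  have : h.toFinset = univ := by
    apply Finset.eq_univ_of_card
    rw [List.toFinset_card_of_nodup hnd, hl]
  have he : e ∈ h.toFinset := by rw [this]; exact mem_univ e
  simpa using he

end Criteria

end Pool.Agent.Lead.Clique
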