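import Mathlib
import Pool.Agent.Lead.Clique.Potential

/-!
# Counting cliques of the complete graph, weighted
-/

namespace Pool.Agent.Lead.Clique

open Finset Nat

/-- the edges of the complete graph on `Fin N` -/
abbrev KEdge (N : ℕ) : Type := ↥((⊤ : SimpleGraph (Fin N)).edgeSet)

noncomputable section

variable {N : ℕ}

open Classical in
/-- the edges inside a set of vertices -/
def inside (C : Finset (Fin N)) : Finset (KEdge N) :=
  univ.filter fun e => ∀ v ∈ e.1, v ∈ C

lemma mem_inside (C : Finset (Fin N)) (e : KEdge N) : e ∈ inside C ↔ ∀ v ∈ e.1, v ∈ C := by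
  classical
  simp [inside]

lemma card_inside (C : Finset (Fin N)) : (inside C).card = C.card.choose 2 := by
  classical
  rw [← Sym2.card_image_offDiag C, ← Finset.card_map (Function.Embedding.subtype _)]
  congr 1
  ext e
  simp only [mem_map, Function.Embedding.coe_subtype, Subtype.exists, exists_and_right,
    exists_eq_right, mem_image, mem_offDiag, Prod.exists]
  induction e with
  | _ a b =>
  constructor
  · rintro ⟨he, h⟩
    rw [mem_inside] at h
    simp only [SimpleGraph.mem_edgeSet, SimpleGraph.top_adj] at he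
    exact ⟨a, b, ⟨h a (by simp), h b (by simp), he⟩, rfl⟩
  · rintro ⟨c, d, ⟨hc, hd, hcd⟩, h⟩
    have h' : s(c, d) = s(a, b) := h
    rw [← h']
    refine ⟨by simpa using hcd, ?_⟩
    rw [mem_inside]
    intro v hv
    simp only [Sym2.mem_iff] at hv
    rcases hv with rfl | rfl <;> assumption

lemma inside_inter [DecidableEq (KEdge N)] (C D : Finset (Fin N)) :
    inside C ∩ inside D = inside (C ∩ D) := by
  ext e
  simp only [mem_inter, mem_inside]
  constructor
  · rintro ⟨h1, h2⟩ v hv; exact ⟨h1 v hv, h2 v hv⟩
  · intro h; exact ⟨fun v hv => (h v hv).1, fun v hv => (h v hv).2⟩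

lemma card_union_inside [DecidableEq (KEdge N)] (C D : Finset (Fin N)) :
    (inside C ∪ inside D).card + (C ∩ D).card.choose 2 = C.card.choose 2 + D.card.choose 2 := by
  have := Finset.card_union_add_card_inter (inside C) (inside D)
  rwa [inside_inter, card_inside, card_inside, card_inside] at this

/-- the number of `q`-sets containing a given `j`-set -/
lemma card_superset_le (q : ℕ) (J : Finset (Fin N)) :
    ((powersetCard q (univ : Finset (Fin N))).filter fun D => J ⊆ D).card ≤
      (N - J.card).choose (q - J.card) := by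
  classical
  have h1 : (univ \ J : Finset (Fin N)).card = N - J.card := by
    rw [Finset.card_sdiff_of_subset (Finset.subset_univ J)]; simp
  rw [← h1, ← Finset.card_powersetCard]
  apply Finset.card_le_card_of_injOn (fun D => D \ J)
  · intro D hD
    rw [mem_coe, mem_filter, mem_powersetCard] at hD
    rw [mem_coe, mem_powersetCard]
    replace hD := And.intro hD.1.2 hD.2
    refine ⟨Finset.sdiff_subset_sdiff (Finset.subset_univ D) le_rfl, ?_⟩
    rw [Finset.card_sdiff_of_subset hD.2, hD.1]
  · intro D hD D' hD' h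
    rw [mem_coe, mem_filter, mem_powersetCard] at hD hD'
    replace hD := And.intro hD.1.2 hD.2
    replace hD' := And.intro hD'.1.2 hD'.2
    have h' : D \ J = D' \ J := h
    rw [← Finset.sdiff_union_of_subset hD.2, h', Finset.sdiff_union_of_subset hD'.2]

lemma card_inter_eq_le (q j : ℕ) (C : Finset (Fin N)) (hC : C.card = q) :
    ((powersetCard q (univ : Finset (Fin N))).filter fun D => (C ∩ D).card = j).card ≤
      q.choose j * (N - j).choose (q - j) := by
  classical
  have hsub : ((powersetCard q (univ : Finset (Fin N))).filter fun D => (C ∩ D).card = j) ⊆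
      (powersetCard j C).biUnion
        (fun J => (powersetCard q (univ : Finset (Fin N))).filter fun D => J ⊆ D) := by
    intro D hD
    simp only [mem_filter] at hD
    simp only [mem_biUnion, mem_powersetCard, mem_filter]
    exact ⟨C ∩ D, ⟨Finset.inter_subset_left, hD.2⟩, by simpa using hD.1, Finset.inter_subset_right⟩
  calc _ ≤ _ := Finset.card_le_card hsub
    _ ≤ ∑ J ∈ powersetCard j C,
        ((powersetCard q (univ : Finset (Fin N))).filter fun D => J ⊆ D).card :=
      Finset.card_biUnion_le
    _ ≤ ∑ J ∈ powersetCard j C, (N - j).choose (q - j) := by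
      apply Finset.sum_le_sum
      intro J hJ
      rw [mem_powersetCard] at hJ
      have := card_superset_le (N := N) q J
      rwa [hJ.2] at this
    _ = _ := by rw [Finset.sum_const, Finset.card_powersetCard, hC, smul_eq_mul]

/-- the total weight of all `q`-cliques at the start -/
lemma tw_clique [DecidableEq (KEdge N)] (q : ℕ) :
    tw (powersetCard q (univ : Finset (Fin N))) inside ∅ ∅ =
      (N.choose q : ℝ) * (1 / 2) ^ (q.choose 2) := by
  unfold tw
  have : ∀ C ∈ powersetCard q (univ : Finset (Fin N)),
      wt (inside C) ∅ ∅ = (1 / 2 : ℝ) ^ (q.choose 2) := by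
    intro C hC
    rw [mem_powersetCard] at hC
    rw [wt_empty, card_inside, hC.2]
  rw [Finset.sum_congr rfl this, Finset.sum_const, Finset.card_powersetCard]
  simp

/-- the pair weight -/
lemma tw_pairs_le [DecidableEq (KEdge N)] (q r j₀ : ℕ) (hqN : q ≤ N)
    (hj : ∀ j, r ≤ j.choose 2 → j₀ ≤ j) (ε : ℝ) (hε0 : 0 ≤ ε)
    (hε : ∀ j, j₀ ≤ j → j ≤ q → ((q.choose j : ℝ)) ^ 2 * 2 ^ (j.choose 2) ≤ ε * N.choose j) :
    tw (prs (powersetCard q (univ : Finset (Fin N))) inside r) (un inside) ∅ ∅ ≤
      ((N.choose q : ℝ) * (1 / 2) ^ (q.choose 2)) ^ 2 * ((q + 1) * ε) := by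
  classical
  set S := powersetCard q (univ : Finset (Fin N)) with hS
  -- expand
  have e1 : tw (prs S inside r) (un inside) ∅ ∅ =
      ∑ C ∈ S, ∑ D ∈ S, if r ≤ ((C ∩ D).card.choose 2) then
        (1 / 2 : ℝ) ^ (2 * q.choose 2) * 2 ^ ((C ∩ D).card.choose 2) else 0 := by
    unfold tw prs
    rw [Finset.sum_filter, Finset.sum_product]
    apply Finset.sum_congr rfl
    intro C hC
    apply Finset.sum_congr rfl
    intro D hD
    rw [hS, mem_powersetCard] at hC hD
    dsimp only
    rw [inside_inter, card_inside]
    by_cases hr : r ≤ (C ∩ D).card.choose 2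
    · rw [if_pos hr, if_pos hr, wt_empty]
      have h1 := card_union_inside C D
      rw [hC.2, hD.2] at h1
      have h2 : (2 : ℝ) ^ ((C ∩ D).card.choose 2) = ((1 / 2 : ℝ) ^ ((C ∩ D).card.choose 2))⁻¹ := by
        rw [← inv_pow]; norm_num
      have h3 : (un inside (C, D)).card + (C ∩ D).card.choose 2 = 2 * q.choose 2 := by
        unfold un; dsimp only; omega
      rw [h2, ← h3, pow_add]
      field_simp
    · rw [if_neg hr, if_neg hr]
  rw [e1]
  -- inner sum
  have e2 : ∀ C ∈ S, (∑ D ∈ S, if r ≤ ((C ∩ D).card.choose 2) then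
        (1 / 2 : ℝ) ^ (2 * q.choose 2) * 2 ^ ((C ∩ D).card.choose 2) else 0) ≤
      (1 / 2 : ℝ) ^ (2 * q.choose 2) * ((q + 1) * (ε * N.choose q)) := by
    intro C hC
    rw [hS, mem_powersetCard] at hC
    have e3 : (∑ D ∈ S, if r ≤ ((C ∩ D).card.choose 2) then
        (1 / 2 : ℝ) ^ (2 * q.choose 2) * 2 ^ ((C ∩ D).card.choose 2) else 0) =
        ∑ j ∈ range (q + 1), ∑ D ∈ S.filter (fun D => (C ∩ D).card = j),
          if r ≤ ((C ∩ D).card.choose 2) then
            (1 / 2 : ℝ) ^ (2 * q.choose 2) * 2 ^ ((C ∩ D).card.choose 2) else 0 := by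
      rw [Finset.sum_fiberwise_of_maps_to]
      intro D _
      rw [mem_range]
      have := Finset.card_le_card (Finset.inter_subset_left (s₁ := C) (s₂ := D))
      omega
    rw [e3]
    have e4 : ∀ j ∈ range (q + 1), (∑ D ∈ S.filter (fun D => (C ∩ D).card = j),
          if r ≤ ((C ∩ D).card.choose 2) then
            (1 / 2 : ℝ) ^ (2 * q.choose 2) * 2 ^ ((C ∩ D).card.choose 2) else 0) ≤
        (1 / 2 : ℝ) ^ (2 * q.choose 2) * (ε * N.choose q) := by
      intro j hjq
      rw [mem_range] at hjq
      have e5 : (∑ D ∈ S.filter (fun D => (C ∩ D).card = j),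
          if r ≤ ((C ∩ D).card.choose 2) then
            (1 / 2 : ℝ) ^ (2 * q.choose 2) * 2 ^ ((C ∩ D).card.choose 2) else 0) =
          ((S.filter (fun D => (C ∩ D).card = j)).card : ℝ) *
            (if r ≤ j.choose 2 then (1 / 2 : ℝ) ^ (2 * q.choose 2) * 2 ^ (j.choose 2) else 0) := by
        rw [← nsmul_eq_mul, ← Finset.sum_const]
        apply Finset.sum_congr rfl
        intro D hD
        rw [mem_filter] at hD
        rw [hD.2]
      rw [e5]
      by_cases hr : r ≤ j.choose 2
      · rw [if_pos hr]
        have hj0 := hj j hr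
        have h1 := hε j hj0 (by omega)
        have hcard := card_inter_eq_le (N := N) q j C hC.2
        have hid := Nat.choose_mul (n := N) (k := q) (s := j) (by omega)
        have hNj : (0 : ℝ) < N.choose j := by exact_mod_cast Nat.choose_pos (by omega)
        have hcard' : ((S.filter (fun D => (C ∩ D).card = j)).card : ℝ) ≤
            q.choose j * (N - j).choose (q - j) := by exact_mod_cast hcard
        have hid' : (N.choose q : ℝ) * q.choose j = N.choose j * (N - j).choose (q - j) := by
          exact_mod_cast hid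
        have h2 : ((S.filter (fun D => (C ∩ D).card = j)).card : ℝ) * 2 ^ (j.choose 2) ≤
            ε * N.choose q := by
          have h3 : ((S.filter (fun D => (C ∩ D).card = j)).card : ℝ) * 2 ^ (j.choose 2)
              * N.choose j ≤ ε * N.choose q * N.choose j := by
            calc ((S.filter (fun D => (C ∩ D).card = j)).card : ℝ) * 2 ^ (j.choose 2)
                * N.choose j ≤ (q.choose j * (N - j).choose (q - j)) * 2 ^ (j.choose 2)
                * N.choose j := by gcongr
              _ = q.choose j * 2 ^ (j.choose 2) * (N.choose j * (N - j).choose (q - j)) := by ring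
              _ = (q.choose j) ^ 2 * 2 ^ (j.choose 2) * N.choose q := by rw [← hid']; ring
              _ ≤ (ε * N.choose j) * N.choose q := by gcongr
              _ = ε * N.choose q * N.choose j := by ring
          exact le_of_mul_le_mul_right h3 hNj
        calc ((S.filter (fun D => (C ∩ D).card = j)).card : ℝ) *
            ((1 / 2 : ℝ) ^ (2 * q.choose 2) * 2 ^ (j.choose 2))
            = (1 / 2 : ℝ) ^ (2 * q.choose 2) *
              (((S.filter (fun D => (C ∩ D).card = j)).card : ℝ) * 2 ^ (j.choose 2)) := by ring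
          _ ≤ _ := by gcongr
      · rw [if_neg hr, mul_zero]
        positivity
    calc _ ≤ ∑ j ∈ range (q + 1), (1 / 2 : ℝ) ^ (2 * q.choose 2) * (ε * N.choose q) :=
          Finset.sum_le_sum e4
      _ = _ := by rw [Finset.sum_const, Finset.card_range]; simp; ring
  calc _ ≤ ∑ C ∈ S, (1 / 2 : ℝ) ^ (2 * q.choose 2) * ((q + 1) * (ε * N.choose q)) :=
        Finset.sum_le_sum e2
    _ = _ := by
      rw [Finset.sum_const, hS, Finset.card_powersetCard]
      simp only [Finset.card_univ, Fintype.card_fin, nsmul_eq_mul]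
      rw [mul_comm 2 (q.choose 2), pow_mul]
      ring

end

end Pool.Agent.Lead.Clique
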